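import Pool.Agent.Helper70.MM.Goals3
import Pool.Agent.Helper20.MM.CEDGE

/-!
Packet MM-CEDGE2: the potential of the vertices of the cube `[0,ℓ]ⁿ`, `ℓ ≤ 1`, on the edges
issuing from `0`.
-/

open MeasureTheory Set Metric
open scoped ENNReal RealInnerProductSpace Topology
open Pool.Agent.Results.MP_91ee6f_gt

namespace Pool.Agent.Helper79.MM

open Pool.Agent.Helper70.MM
open Pool.Agent.Helper20.MM (pv_single dist_notMem dist_insert)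

/-- `D = (1 - e^{-s})(1 - e^{-(ℓ-s)})`. -/
noncomputable def DD (ℓ s : ℝ) : ℝ := (1 - Real.exp (-s)) * (1 - Real.exp (-(ℓ - s)))

lemma DD_nonneg {ℓ s : ℝ} (hs : 0 ≤ s) (hsℓ : s ≤ ℓ) : 0 ≤ DD ℓ s := by
  have h1 : Real.exp (-s) ≤ 1 := Real.exp_le_one_iff.mpr (by linarith)
  have h2 : Real.exp (-(ℓ - s)) ≤ 1 := Real.exp_le_one_iff.mpr (by linarith)
  exact mul_nonneg (by linarith) (by linarith)

/-- The lower bound for the contribution of the subsets with `m` elements. -/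
noncomputable def low (ℓ s : ℝ) : ℕ → ℝ
  | 0 => -DD ℓ s
  | k + 1 => DD ℓ s / (1 - Real.exp (-ℓ)) * ff ℓ ((k + 1 : ℕ) + 1)

lemma low_le (hE : EDGEJ) (ℓ s : ℝ) (hℓ : 0 < ℓ) (hℓ1 : ℓ ≤ 1)
    (hs : 0 ≤ s) (hsℓ : s ≤ ℓ) (m : ℕ) :
    (Real.exp (-Real.sqrt ((m : ℝ) * ℓ ^ 2 + 0 ^ 2)) +
        Real.exp (-Real.sqrt ((m : ℝ) * ℓ ^ 2 + (ℓ - 0) ^ 2))) + low ℓ s m ≤
      Real.exp (-Real.sqrt ((m : ℝ) * ℓ ^ 2 + s ^ 2)) +
        Real.exp (-Real.sqrt ((m : ℝ) * ℓ ^ 2 + (ℓ - s) ^ 2)) := by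
  match m with
  | 0 =>
    have a1 : Real.sqrt (((0 : ℕ) : ℝ) * ℓ ^ 2 + 0 ^ 2) = 0 := by simp
    have a2 : Real.sqrt (((0 : ℕ) : ℝ) * ℓ ^ 2 + (ℓ - 0) ^ 2) = ℓ := by
      rw [Nat.cast_zero, zero_mul, zero_add, sub_zero, Real.sqrt_sq hℓ.le]
    have a3 : Real.sqrt (((0 : ℕ) : ℝ) * ℓ ^ 2 + s ^ 2) = s := by
      rw [Nat.cast_zero, zero_mul, zero_add, Real.sqrt_sq hs]
    have a4 : Real.sqrt (((0 : ℕ) : ℝ) * ℓ ^ 2 + (ℓ - s) ^ 2) = ℓ - s := by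
      rw [Nat.cast_zero, zero_mul, zero_add, Real.sqrt_sq (by linarith)]
    rw [a1, a2, a3, a4, neg_zero, Real.exp_zero]
    have e : Real.exp (-s) * Real.exp (-(ℓ - s)) = Real.exp (-ℓ) := by
      rw [← Real.exp_add]
      congr 1
      ring
    simp only [low, DD]
    nlinarith [e]
  | k + 1 =>
    have e := hE (k + 1) ℓ s (by omega) hℓ hℓ1 hs hsℓ
    have hpos : 0 < 1 - Real.exp (-ℓ) := by
      have : Real.exp (-ℓ) < 1 := Real.exp_lt_one_iff.mpr (by linarith)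
      linarith
    have a1 : Real.sqrt (((k + 1 : ℕ) : ℝ) * ℓ ^ 2 + 0 ^ 2) =
        Real.sqrt (((k + 1 : ℕ) : ℝ)) * ℓ := by
      rw [show ((k + 1 : ℕ) : ℝ) * ℓ ^ 2 + (0 : ℝ) ^ 2 = ((k + 1 : ℕ) : ℝ) * ℓ ^ 2 by ring,
        Real.sqrt_mul (Nat.cast_nonneg _), Real.sqrt_sq hℓ.le]
    have a2 : Real.sqrt (((k + 1 : ℕ) : ℝ) * ℓ ^ 2 + (ℓ - 0) ^ 2) =
        Real.sqrt (((k + 1 : ℕ) : ℝ) + 1) * ℓ := by
      rw [show ((k + 1 : ℕ) : ℝ) * ℓ ^ 2 + (ℓ - 0) ^ 2 = (((k + 1 : ℕ) : ℝ) + 1) * ℓ ^ 2 by ring,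
        Real.sqrt_mul (by positivity), Real.sqrt_sq hℓ.le]
    rw [a1, a2]
    have hlow : low ℓ s (k + 1) =
        ff ℓ (((k + 1 : ℕ) : ℝ) + 1) * ((1 - Real.exp (-s)) * (1 - Real.exp (-(ℓ - s)))) /
          (1 - Real.exp (-ℓ)) := by
      simp only [low, DD]
      ring
    rw [hlow]
    have hd := (div_le_iff₀ hpos).mpr e
    linarith

/-- Packet MM-CEDGE2. -/
theorem cedge2 : EDGEJ → CEDGE2 := by
  intro hE n ℓ hn hℓ hℓ1 hcond i s hs hsℓ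
  have hpos : 0 < 1 - Real.exp (-ℓ) := by
    have : Real.exp (-ℓ) < 1 := Real.exp_lt_one_iff.mpr (by linarith)
    linarith
  have hzero : (0 : En n) = EuclideanSpace.single i (0 : ℝ) := by
    ext j
    by_cases hj : j = i <;> simp [hj]
  rw [hzero, pv_single, pv_single]
  have hsum : 0 ≤ ∑ T ∈ ((Finset.univ : Finset (Fin n)).erase i).powerset, low ℓ s T.card := by
    rw [Finset.sum_powerset_apply_card (low ℓ s)]
    have hcard : ((Finset.univ : Finset (Fin n)).erase i).card = n - 1 := by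
      rw [Finset.card_erase_of_mem (Finset.mem_univ i), Finset.card_univ, Fintype.card_fin]
    rw [hcard]
    obtain ⟨k, rfl⟩ : ∃ k, n = k + 1 := ⟨n - 1, by omega⟩
    unfold sl at hcond
    rw [show k + 1 - 1 = k by omega] at hcond ⊢
    rw [Finset.sum_range_succ'] at hcond ⊢
    have hl0 : (k.choose 0) • low ℓ s 0 = -DD ℓ s := by simp [low]
    have hc0 : ((k.choose 0 : ℕ) : ℝ) *
        (Real.exp (-(Real.sqrt (((0 : ℕ) : ℝ) + 1) * ℓ)) / Real.sqrt (((0 : ℕ) : ℝ) + 1)) =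
          Real.exp (-ℓ) := by
      simp
    have hls : ∑ m ∈ Finset.range k, (k.choose (m + 1)) • low ℓ s (m + 1) =
        DD ℓ s / (1 - Real.exp (-ℓ)) * ∑ m ∈ Finset.range k, ((k.choose (m + 1) : ℕ) : ℝ) *
          (Real.exp (-(Real.sqrt (((m + 1 : ℕ) : ℝ) + 1) * ℓ)) /
            Real.sqrt (((m + 1 : ℕ) : ℝ) + 1)) := by
      rw [Finset.mul_sum]
      refine Finset.sum_congr rfl (fun m _ => ?_)
      simp only [low, ff, nsmul_eq_mul]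
      rw [mul_comm (Real.sqrt (((m + 1 : ℕ) : ℝ) + 1)) ℓ]
      ring
    rw [hl0, hls]
    rw [hc0] at hcond
    have hD := DD_nonneg hs hsℓ
    have hq : 0 ≤ DD ℓ s / (1 - Real.exp (-ℓ)) := div_nonneg hD hpos.le
    have hDD : DD ℓ s = DD ℓ s / (1 - Real.exp (-ℓ)) * (1 - Real.exp (-ℓ)) := by
      rw [div_mul_cancel₀ _ hpos.ne']
    have := mul_le_mul_of_nonneg_left (sub_le_iff_le_add.mpr hcond) hq
    linarith
  calc ∑ T ∈ ((Finset.univ : Finset (Fin n)).erase i).powerset,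
        (Real.exp (-Real.sqrt ((T.card : ℝ) * ℓ ^ 2 + 0 ^ 2)) +
          Real.exp (-Real.sqrt ((T.card : ℝ) * ℓ ^ 2 + (ℓ - 0) ^ 2)))
      ≤ ∑ T ∈ ((Finset.univ : Finset (Fin n)).erase i).powerset,
        (Real.exp (-Real.sqrt ((T.card : ℝ) * ℓ ^ 2 + 0 ^ 2)) +
          Real.exp (-Real.sqrt ((T.card : ℝ) * ℓ ^ 2 + (ℓ - 0) ^ 2))) +
        ∑ T ∈ ((Finset.univ : Finset (Fin n)).erase i).powerset, low ℓ s T.card := by
        linarith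
    _ = ∑ T ∈ ((Finset.univ : Finset (Fin n)).erase i).powerset,
        ((Real.exp (-Real.sqrt ((T.card : ℝ) * ℓ ^ 2 + 0 ^ 2)) +
          Real.exp (-Real.sqrt ((T.card : ℝ) * ℓ ^ 2 + (ℓ - 0) ^ 2))) + low ℓ s T.card) := by
        rw [← Finset.sum_add_distrib]
    _ ≤ _ := Finset.sum_le_sum (fun T _ => low_le hE ℓ s hℓ hℓ1 hs hsℓ T.card)

end Pool.Agent.Helper79.MM
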